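import Pool.Agent.helper75.IQ.Spec

set_option autoImplicit false

namespace Pool.Agent.helper75.IQ

open MeasureTheory Set

theorem BAL_nq_cont : Continuous (fun p : Sp => nq (pr p)) := by
  unfold nq pr
  fun_prop

theorem BAL_nq_nonneg (q : ℝ × ℝ) : 0 ≤ nq q := by
  unfold nq
  positivity

theorem BAL_lam (κ R w : ℝ) (hκ : κ ≤ 0) (hR : -4 < κ * R ^ 2) (hw : w ≤ R ^ 2) :
    0 < lam κ w := by
  unfold lam
  apply inv_pos.mpr
  nlinarith

/-- The closed ball. -/
theorem BAL (hHGT : HGT_stmt) : BAL_stmt := by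
  intro κ τ R hκ hR hκR
  obtain ⟨-, -, h3, h4, h5, -⟩ := hHGT κ τ R hκ hR hκR
  -- monotonicity
  have hanti : AntitoneOn (hgt κ τ R) (Icc 0 (R ^ 2)) := by
    apply antitoneOn_of_deriv_nonpos (convex_Icc _ _)
    · exact h3.mono (fun w hw => hw.2)
    · rw [interior_Icc]
      intro w hw
      exact (h5 w hw.2).differentiableAt.differentiableWithinAt
    · rw [interior_Icc]
      intro w hw
      rw [(h5 w hw.2).deriv]
      unfold dh
      have h6 := (BAL_lam κ R w hκ hκR hw.2.le).le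
      have h7 := Real.sqrt_nonneg ((1 + τ ^ 2 * w) / (R ^ 2 - w))
      have h8 := mul_nonneg h6 h7
      linarith
  have hcl : IsClosed {p : Sp | nq (pr p) ≤ R ^ 2} :=
    isClosed_le BAL_nq_cont continuous_const
  have hfc : ContinuousOn (fun p : Sp => hgt κ τ R (nq (pr p))) {p : Sp | nq (pr p) ≤ R ^ 2} :=
    h3.comp BAL_nq_cont.continuousOn (fun p hp => hp)
  have hclosed : IsClosed (ball κ τ R) := by
    have h6 := hcl.isClosed_le (f := fun p : Sp => |p.2.2|)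
      (g := fun p : Sp => hgt κ τ R (nq (pr p))) (by fun_prop) hfc
    exact h6
  -- the open set
  obtain ⟨U, hU⟩ : ∃ U : Set Sp, U = {p : Sp | nq (pr p) < R ^ 2} ∩
    (fun p : Sp => hgt κ τ R (nq (pr p)) - |p.2.2|) ⁻¹' (Ioi 0) := ⟨_, rfl⟩
  have hUo : IsOpen U := by
    rw [hU]
    apply ContinuousOn.isOpen_inter_preimage _ (isOpen_lt BAL_nq_cont continuous_const) isOpen_Ioi
    apply ContinuousOn.sub
    · exact hfc.mono (fun p (hp : nq (pr p) < R ^ 2) => (le_of_lt hp : nq (pr p) ≤ R ^ 2))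
    · fun_prop
  have hUb : U ⊆ ball κ τ R := by
    rw [hU]
    rintro p ⟨hp1, hp2⟩
    have hp2' : 0 < hgt κ τ R (nq (pr p)) - |p.2.2| := hp2
    exact ⟨le_of_lt hp1, by linarith⟩
  have hUi : U ⊆ interior (ball κ τ R) := interior_maximal hUb hUo
  have hmemU : ∀ p : Sp, nq (pr p) < R ^ 2 → |p.2.2| < hgt κ τ R (nq (pr p)) → p ∈ U := by
    intro p h6 h7
    rw [hU]
    have h8 : 0 < hgt κ τ R (nq (pr p)) - |p.2.2| := by linarith
    exact ⟨h6, h8⟩
  refine ⟨⟨?_, ?_⟩, ?_⟩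
  · -- compactness
    have hK : IsCompact (Icc (0 : ℝ) (R ^ 2)) := isCompact_Icc
    obtain ⟨M, hM⟩ := (hK.image_of_continuousOn (h3.mono (fun w hw => hw.2))).bddAbove
    have hbig : IsCompact (Icc (-R) R ×ˢ (Icc (-R) R ×ˢ Icc (-M) M) : Set Sp) :=
      isCompact_Icc.prod (isCompact_Icc.prod isCompact_Icc)
    apply hbig.of_isClosed_subset hclosed
    rintro ⟨x, y, t⟩ ⟨hp1, hp2⟩
    have hp1' : x ^ 2 + y ^ 2 ≤ R ^ 2 := hp1
    have hx : |x| ≤ R := abs_le_of_sq_le_sq (by nlinarith [sq_nonneg y]) hR.le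
    have hy : |y| ≤ R := abs_le_of_sq_le_sq (by nlinarith [sq_nonneg x]) hR.le
    have ht : |t| ≤ M := by
      have h6 : hgt κ τ R (nq (pr (x, y, t))) ≤ M :=
        hM ⟨nq (pr (x, y, t)), ⟨BAL_nq_nonneg _, hp1⟩, rfl⟩
      exact le_trans hp2 h6
    exact ⟨abs_le.mp hx, abs_le.mp hy, abs_le.mp ht⟩
  · -- closure of the interior
    apply Subset.antisymm
    · exact closure_minimal interior_subset hclosed
    · rintro ⟨x, y, t⟩ ⟨hp1, hp2⟩
      have hp1' : x ^ 2 + y ^ 2 ≤ R ^ 2 := hp1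
      have hp2' : |t| ≤ hgt κ τ R (x ^ 2 + y ^ 2) := hp2
      have hlim : Filter.Tendsto (fun θ : ℝ => ((θ * x, θ * y, θ * t) : Sp))
          (nhdsWithin 1 (Iio 1)) (nhds (x, y, t)) := by
        have hc : Continuous (fun θ : ℝ => ((θ * x, θ * y, θ * t) : Sp)) := by fun_prop
        have h6 := hc.tendsto 1
        simp only [one_mul] at h6
        exact h6.mono_left nhdsWithin_le_nhds
      apply mem_closure_of_tendsto hlim
      have hev : ∀ᶠ θ : ℝ in nhdsWithin 1 (Iio 1), θ ∈ Ioo (0 : ℝ) 1 :=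
        Ioo_mem_nhdsLT (by norm_num)
      filter_upwards [hev] with θ hθ
      apply hUi
      apply hmemU
      · show (θ * x) ^ 2 + (θ * y) ^ 2 < R ^ 2
        have h6 : θ ^ 2 < 1 := by nlinarith [hθ.1, hθ.2]
        have h7 : 0 ≤ x ^ 2 + y ^ 2 := by positivity
        have h8 : (θ * x) ^ 2 + (θ * y) ^ 2 = θ ^ 2 * (x ^ 2 + y ^ 2) := by ring
        rw [h8]
        have h9 : 0 < R ^ 2 := by positivity
        nlinarith
      · show |θ * t| < hgt κ τ R ((θ * x) ^ 2 + (θ * y) ^ 2)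
        have h6 : θ ^ 2 < 1 := by nlinarith [hθ.1, hθ.2]
        have h7 : 0 ≤ x ^ 2 + y ^ 2 := by positivity
        have h8 : (θ * x) ^ 2 + (θ * y) ^ 2 = θ ^ 2 * (x ^ 2 + y ^ 2) := by ring
        have h9 : 0 < R ^ 2 := by positivity
        have hθ2 : 0 ≤ θ ^ 2 := by positivity
        have h10 : θ ^ 2 * (x ^ 2 + y ^ 2) < R ^ 2 := by nlinarith
        have h11 : 0 ≤ θ ^ 2 * (x ^ 2 + y ^ 2) := by positivity
        have h12 : θ ^ 2 * (x ^ 2 + y ^ 2) ≤ x ^ 2 + y ^ 2 := by nlinarith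
        rw [h8]
        have hpos := h4 _ h11 h10
        have hmono := hanti ⟨h11, h10.le⟩ ⟨h7, hp1'⟩ h12
        rw [abs_mul, abs_of_pos hθ.1]
        rcases (abs_nonneg t).eq_or_lt with h13 | h13
        · rw [← h13, mul_zero]
          exact hpos
        · have h14 : θ * |t| < |t| := by nlinarith [hθ.2]
          linarith
  · -- trapped
    refine ⟨hR, hκR, continuousOn_const, fun p hp => hp.1, ?_⟩
    intro q hq
    apply hUi
    apply hmemU
    · exact hq
    · show |(0 : ℝ)| < hgt κ τ R (nq (pr (q.1, q.2, 0)))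
      rw [abs_zero]
      exact h4 _ (BAL_nq_nonneg _) hq

end Pool.Agent.helper75.IQ
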