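import Pool.Agent.helper75.IQ.Spec

/-!
# MP_84f457_gt: the boundary of an extremal region is a union of translates of the hemisphere (weak form)
-/

set_option autoImplicit false

namespace Pool.Agent.helper75.IQ

open MeasureTheory Set

/-- multiples of test functions -/
theorem EQD_side {R s : ℝ} {m : ℝ × ℝ → ℝ} {ψ : Sp → ℝ} (h : Side R s m ψ) (g : Sp → ℝ)
    (hg : ∀ p : Sp, nq (pr p) < R ^ 2 → ContDiffAt ℝ 1 g p) : Side R s m (fun p => g p * ψ p) := by
  have hsub : tsupport (fun p => g p * ψ p) ⊆ tsupport ψ := tsupport_mul_subset_right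
  refine ⟨?_, ?_, ?_⟩
  · rw [contDiff_iff_contDiffAt]
    intro p
    by_cases hp : p ∈ tsupport (fun p => g p * ψ p)
    · exact (hg p (h.sup p (hsub hp)).1).mul h.c1.contDiffAt
    · have h1 := notMem_tsupport_iff_eventuallyEq.mp hp
      exact (contDiffAt_const (c := (0 : ℝ))).congr_of_eventuallyEq h1
  · exact HasCompactSupport.mul_left h.cs
  · intro p hp
    exact h.sup p (hsub hp)

theorem EQD_zero (R s : ℝ) (m : ℝ × ℝ → ℝ) : Side R s m (fun _ => 0) := by
  have h0 : tsupport (fun _ : Sp => (0 : ℝ)) = ∅ := by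
    rw [tsupport_eq_empty_iff]
    rfl
  refine ⟨contDiff_const, ?_, ?_⟩
  · unfold HasCompactSupport
    rw [h0]
    exact isCompact_empty
  · intro p hp
    rw [h0] at hp
    exact absurd hp (Set.notMem_empty p)

/-- the derivative in a direction in which one factor is constant -/
theorem EQD_dir {g ψ : Sp → ℝ} {p v : Sp} (h2 : DifferentiableAt ℝ (fun q => g q * ψ q) p)
    (h1 : DifferentiableAt ℝ ψ p) (hc : ∀ σ : ℝ, g (p + σ • v) = g p) :
    fderiv ℝ (fun q => g q * ψ q) p v = g p * fderiv ℝ ψ p v := by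
  rw [← h2.lineDeriv_eq_fderiv, ← h1.lineDeriv_eq_fderiv]
  unfold lineDeriv
  have h3 : (fun t : ℝ => g (p + t • v) * ψ (p + t • v)) = fun t : ℝ => g p * ψ (p + t • v) := by
    funext t
    rw [hc]
  rw [h3, deriv_const_mul_field]

theorem EQD_pos {κ R w : ℝ} (hκ : κ ≤ 0) (hR : -4 < κ * R ^ 2) (hw : w < R ^ 2) : 0 < 1 + κ / 4 * w := by
  nlinarith

theorem EQD_nq0 (q : ℝ × ℝ) : 0 ≤ nq q := by
  unfold nq
  positivity

theorem EQD_one {τ w : ℝ} (hw : 0 ≤ w) : 0 < 1 + τ ^ 2 * w := by positivity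

theorem EQD_nq_cd (p : Sp) : ContDiffAt ℝ 1 (fun q : Sp => nq (pr q)) p := by
  unfold nq pr
  fun_prop

/-- `x / R = - λ⁻¹ u_x k` -/
theorem EQD_key {κ τ R w : ℝ} (hκ : κ ≤ 0) (h0 : 0 < R) (hR : -4 < κ * R ^ 2) (hw : w < R ^ 2) (hw0 : 0 ≤ w) :
    (1 + κ / 4 * w) * (2 * dh κ τ R w) * kk τ (1 / R) w = -(1 / R) := by
  have h1 := EQD_pos hκ hR hw
  have h2 := EQD_one (τ := τ) hw0
  have h3 : 0 < R ^ 2 - w := by linarith
  have h4 : 1 - (1 / R) ^ 2 * w = (R ^ 2 - w) / R ^ 2 := by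
    field_simp
  unfold dh kk lam
  rw [h4, Real.sqrt_div h2.le, Real.sqrt_div h3.le, Real.sqrt_sq h0.le]
  have h5 : 0 < √(1 + τ ^ 2 * w) := Real.sqrt_pos.mpr h2
  have h6 : 0 < √(R ^ 2 - w) := Real.sqrt_pos.mpr h3
  have h7 : 4 + κ * w ≠ 0 := by
    have : 0 < 4 + κ * w := by linarith
    exact this.ne'
  field_simp

/-- `k² (1 + τ² w) = 1 - w / R²` -/
theorem EQD_kk {τ R w : ℝ} (h0 : 0 < R) (hw : w < R ^ 2) (hw0 : 0 ≤ w) :
    kk τ (1 / R) w ^ 2 * (1 + τ ^ 2 * w) = 1 - (1 / R) ^ 2 * w := by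
  have h2 := EQD_one (τ := τ) hw0
  have h4 : 1 - (1 / R) ^ 2 * w = (R ^ 2 - w) / R ^ 2 := by
    field_simp
  have h3 : 0 ≤ 1 - (1 / R) ^ 2 * w := by
    rw [h4]
    apply div_nonneg (by linarith) (by positivity)
  unfold kk
  rw [div_pow, Real.sq_sqrt h3, Real.sq_sqrt h2.le, div_mul_cancel₀ _ h2.ne']

theorem EQD_kk_cd (τ R : ℝ) (h0 : 0 < R) (p : Sp) (hw : nq (pr p) < R ^ 2) :
    ContDiffAt ℝ 1 (fun q : Sp => kk τ (1 / R) (nq (pr q))) p := by
  have hw0 := EQD_nq0 (pr p)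
  have h2 := EQD_one (τ := τ) hw0
  have h4 : 1 - (1 / R) ^ 2 * nq (pr p) = (R ^ 2 - nq (pr p)) / R ^ 2 := by
    field_simp
  have h3 : 0 < 1 - (1 / R) ^ 2 * nq (pr p) := by
    rw [h4]
    apply div_pos (by linarith) (by positivity)
  have h5 := EQD_nq_cd p
  have h6 : ContDiffAt ℝ 1 (fun q : Sp => √(1 - (1 / R) ^ 2 * nq (pr q))) p :=
    ContDiffAt.sqrt (f := fun q : Sp => 1 - (1 / R) ^ 2 * nq (pr q))
      (contDiffAt_const.sub (contDiffAt_const.mul h5)) h3.ne'
  have h7 : ContDiffAt ℝ 1 (fun q : Sp => √(1 + τ ^ 2 * nq (pr q))) p :=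
    ContDiffAt.sqrt (f := fun q : Sp => 1 + τ ^ 2 * nq (pr q))
      (contDiffAt_const.add (contDiffAt_const.mul h5)) h2.ne'
  exact h6.div h7 (Real.sqrt_pos.mpr h2).ne'

theorem EQD_dh_cd (κ τ R : ℝ) (hκ : κ ≤ 0) (hR : -4 < κ * R ^ 2) (p : Sp)
    (hw : nq (pr p) < R ^ 2) : ContDiffAt ℝ 1 (fun q : Sp => dh κ τ R (nq (pr q))) p := by
  have hw0 := EQD_nq0 (pr p)
  have h1 := EQD_pos hκ hR hw
  have h2 := EQD_one (τ := τ) hw0
  have h3 : 0 < R ^ 2 - nq (pr p) := by linarith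
  have h5 := EQD_nq_cd p
  have h6 : ContDiffAt ℝ 1 (fun q : Sp => √((1 + τ ^ 2 * nq (pr q)) / (R ^ 2 - nq (pr q)))) p :=
    ContDiffAt.sqrt (f := fun q : Sp => (1 + τ ^ 2 * nq (pr q)) / (R ^ 2 - nq (pr q)))
      ((contDiffAt_const.add (contDiffAt_const.mul h5)).div (contDiffAt_const.sub h5) h3.ne')
      (div_pos h2 h3).ne'
  have h7 : ContDiffAt ℝ 1 (fun q : Sp => lam κ (nq (pr q))) p := by
    unfold lam
    exact (contDiffAt_const.add (contDiffAt_const.mul h5)).inv h1.ne'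
  unfold dh
  exact (h7.mul h6).neg.div_const 2

theorem EQD_c1c {κ R s : ℝ} {m : ℝ × ℝ → ℝ} (hκ : κ ≤ 0) (hR : -4 < κ * R ^ 2) (Y : VF)
    (ha : Side R s m Y.a) (hb : Side R s m Y.b) (hc : Side R s m Y.c) : C1c κ Y :=
  ⟨ha.c1, hb.c1, hc.c1, ha.cs, hb.cs, hc.cs, fun p hp => EQD_pos hκ hR (ha.sup p hp).1,
    fun p hp => EQD_pos hκ hR (hb.sup p hp).1, fun p hp => EQD_pos hκ hR (hc.sup p hp).1⟩

theorem EQD (hLIN : LIN_stmt) (hEQT : EQT_stmt) : EQD_stmt := by
  intro κ τ R m E hκ hE hT hper s hs ψ hψ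
  have h0 := hT.r0
  have hR := hT.rk
  obtain ⟨hA, hB⟩ := hEQT κ τ R m E hκ hE hT hper s hs
  have hss : s * s = 1 := by
    rcases hs with rfl | rfl <;> norm_num
  -- facts on the support
  have hsup : ∀ p, ψ p ≠ 0 → nq (pr p) < R ^ 2 := fun p hp => (hψ.sup p (subset_tsupport ψ hp)).1
  have hsupd : ∀ p, nq (pr p) < R ^ 2 ∨ fderiv ℝ ψ p = 0 := by
    intro p
    by_cases h : fderiv ℝ ψ p = 0
    · exact Or.inr h
    · exact Or.inl (hψ.sup p (support_fderiv_subset ℝ h)).1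
  have hlam : ∀ p : Sp, nq (pr p) < R ^ 2 → lam κ (nq (pr p)) * (1 + κ / 4 * nq (pr p)) = 1 := by
    intro p hp
    unfold lam
    exact inv_mul_cancel₀ (EQD_pos hκ hR hp).ne'
  have hψd : ∀ p, DifferentiableAt ℝ ψ p := fun p => (hψ.c1.differentiable one_ne_zero) p
  have hnqv : ∀ (p : Sp) (σ : ℝ), nq (pr (p + σ • ((0, 0, 1) : Sp))) = nq (pr p) := by
    intro p σ
    simp [nq, pr]
  have hxv : ∀ (p : Sp) (σ : ℝ), (p + σ • ((0, 0, 1) : Sp)).1 = p.1 := by
    intro p σ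
    simp
  have hyv : ∀ (p : Sp) (σ : ℝ), (p + σ • ((0, 0, 1) : Sp)).2.1 = p.2.1 := by
    intro p σ
    simp
  -- the function `λ⁻¹ ψ`
  have hLcd : ∀ p : Sp, ContDiffAt ℝ 1 (fun q : Sp => 1 + κ / 4 * nq (pr q)) p := fun p =>
    contDiffAt_const.add (contDiffAt_const.mul (EQD_nq_cd p))
  have hLS : Side R s m (fun p => (1 + κ / 4 * nq (pr p)) * ψ p) := EQD_side hψ _ (fun p _ => hLcd p)
  have hLeq : (fun q : Sp => lam κ (nq (pr q)) * ((1 + κ / 4 * nq (pr q)) * ψ q)) = ψ := by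
    funext q
    by_cases hq : ψ q = 0
    · rw [hq]
      ring
    · rw [← mul_assoc, hlam q (hsup q hq), one_mul]
  have hLt : ∀ p : Sp, fderiv ℝ (fun p => (1 + κ / 4 * nq (pr p)) * ψ p) p (0, 0, 1)
      = (1 + κ / 4 * nq (pr p)) * fderiv ℝ ψ p (0, 0, 1) := by
    intro p
    apply EQD_dir ((hLS.c1.differentiable one_ne_zero) p) (hψd p)
    intro σ
    rw [hnqv]
  have hz : ∀ (p v : Sp), fderiv ℝ (fun _ : Sp => (0 : ℝ)) p v = 0 := by
    intro p v
    rw [fderiv_fun_const]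
    rfl
  have hz2 : ∀ (p v : Sp), fderiv ℝ (fun q : Sp => lam κ (nq (pr q)) * (0 : ℝ)) p v = 0 := by
    intro p v
    simp only [mul_zero]
    exact hz p v
  refine ⟨?_, ?_, ?_⟩
  · -- x
    obtain ⟨g, hg⟩ : ∃ g : Sp → ℝ, g = fun p => (1 + κ / 4 * nq (pr p)) *
        (s * (1 + κ / 4 * nq (pr p)) * (2 * p.1 * dh κ τ R (nq (pr p))) + τ * p.2.1) := ⟨_, rfl⟩
    have hgcd : ∀ p : Sp, nq (pr p) < R ^ 2 → ContDiffAt ℝ 1 g p := by
      intro p hp
      rw [hg]
      apply (hLcd p).mul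
      apply ContDiffAt.add
      · apply (contDiffAt_const.mul (hLcd p)).mul
        exact (contDiffAt_const.mul contDiffAt_fst).mul (EQD_dh_cd κ τ R hκ hR p hp)
      · exact contDiffAt_const.mul (contDiffAt_fst.comp p contDiffAt_snd)
    have hgS := EQD_side hψ g hgcd
    have hgt : ∀ p : Sp, fderiv ℝ (fun p => g p * ψ p) p (0, 0, 1) = g p * fderiv ℝ ψ p (0, 0, 1) := by
      intro p
      apply EQD_dir ((hgS.c1.differentiable one_ne_zero) p) (hψd p)
      intro σ
      rw [hg]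
      simp only
      rw [hnqv, hxv, hyv]
    have h1 := hA ⟨fun p => (1 + κ / 4 * nq (pr p)) * ψ p, fun _ => 0, fun p => g p * ψ p⟩ hLS
      (EQD_zero R s m) hgS (by
        intro p
        simp only [NN]
        by_cases hq : ψ p = 0
        · rw [hq]
          ring
        · have hw := hsup p hq
          have hk := EQD_key (τ := τ) hκ h0 hR hw (EQD_nq0 (pr p))
          rw [hg]
          simp only
          linear_combination (1 + κ / 4 * nq (pr p)) * ψ p * p.1 * hk + (1 + κ / 4 * nq (pr p)) * ψ p *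
            kk τ (1 / R) (nq (pr p)) * (1 + κ / 4 * nq (pr p)) * (2 * p.1 * dh κ τ R (nq (pr p))) * hss)
    refine Eq.trans ?_ h1
    unfold TT
    congr 1
    funext p
    unfold dv
    simp only
    rw [hLeq, hz2, hLt, hgt, hz, hg]
    simp only
    rcases hsupd p with hw | hd
    · have hl := hlam p hw
      linear_combination (-(s * (2 * p.1 * dh κ τ R (nq (pr p))) * fderiv ℝ ψ p (0, 0, 1) *
        (lam κ (nq (pr p)) * (1 + κ / 4 * nq (pr p)) + 1))) * hl
    · rw [hd]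
      simp
  · -- y
    obtain ⟨g, hg⟩ : ∃ g : Sp → ℝ, g = fun p => (1 + κ / 4 * nq (pr p)) *
        (s * (1 + κ / 4 * nq (pr p)) * (2 * p.2.1 * dh κ τ R (nq (pr p))) - τ * p.1) := ⟨_, rfl⟩
    have hgcd : ∀ p : Sp, nq (pr p) < R ^ 2 → ContDiffAt ℝ 1 g p := by
      intro p hp
      rw [hg]
      apply (hLcd p).mul
      apply ContDiffAt.sub
      · apply (contDiffAt_const.mul (hLcd p)).mul
        exact (contDiffAt_const.mul (contDiffAt_fst.comp p contDiffAt_snd)).mul (EQD_dh_cd κ τ R hκ hR p hp)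
      · exact contDiffAt_const.mul contDiffAt_fst
    have hgS := EQD_side hψ g hgcd
    have hgt : ∀ p : Sp, fderiv ℝ (fun p => g p * ψ p) p (0, 0, 1) = g p * fderiv ℝ ψ p (0, 0, 1) := by
      intro p
      apply EQD_dir ((hgS.c1.differentiable one_ne_zero) p) (hψd p)
      intro σ
      rw [hg]
      simp only
      rw [hnqv, hxv, hyv]
    have h1 := hA ⟨fun _ => 0, fun p => (1 + κ / 4 * nq (pr p)) * ψ p, fun p => g p * ψ p⟩
      (EQD_zero R s m) hLS hgS (by
        intro p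
        simp only [NN]
        by_cases hq : ψ p = 0
        · rw [hq]
          ring
        · have hw := hsup p hq
          have hk := EQD_key (τ := τ) hκ h0 hR hw (EQD_nq0 (pr p))
          rw [hg]
          simp only
          linear_combination (1 + κ / 4 * nq (pr p)) * ψ p * p.2.1 * hk + (1 + κ / 4 * nq (pr p)) * ψ p *
            kk τ (1 / R) (nq (pr p)) * (1 + κ / 4 * nq (pr p)) * (2 * p.2.1 * dh κ τ R (nq (pr p))) * hss)
    refine Eq.trans ?_ h1
    unfold TT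
    congr 1
    funext p
    unfold dv
    simp only
    rw [hLeq, hz2, hLt, hgt, hz, hg]
    simp only
    rcases hsupd p with hw | hd
    · have hl := hlam p hw
      linear_combination (-(s * (2 * p.2.1 * dh κ τ R (nq (pr p))) * fderiv ℝ ψ p (0, 0, 1) *
        (lam κ (nq (pr p)) * (1 + κ / 4 * nq (pr p)) + 1))) * hl
    · rw [hd]
      simp
  · -- t
    intro hpos
    obtain ⟨k, hk⟩ : ∃ k : Sp → ℝ, k = fun p => kk τ (1 / R) (nq (pr p)) := ⟨_, rfl⟩
    obtain ⟨N, hN⟩ : ∃ N : VF, N = NN τ (1 / R) s := ⟨_, rfl⟩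
    have hNa : ∀ p, N.a p = 1 / R * p.1 - s * k p * τ * p.2.1 := by
      intro p
      rw [hN, hk]
      rfl
    have hNb : ∀ p, N.b p = 1 / R * p.2.1 + s * k p * τ * p.1 := by
      intro p
      rw [hN, hk]
      rfl
    have hNc : ∀ p, N.c p = s * k p := by
      intro p
      rw [hN, hk]
      rfl
    have hkcd : ∀ p : Sp, nq (pr p) < R ^ 2 → ContDiffAt ℝ 1 k p := by
      intro p hp
      rw [hk]
      exact EQD_kk_cd τ R h0 p hp
    have hNacd : ∀ p : Sp, nq (pr p) < R ^ 2 → ContDiffAt ℝ 1 N.a p := by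
      intro p hp
      have h1 : N.a = fun p => 1 / R * p.1 - s * k p * τ * p.2.1 := funext hNa
      rw [h1]
      apply ContDiffAt.sub
      · exact contDiffAt_const.mul contDiffAt_fst
      · exact ((contDiffAt_const.mul (hkcd p hp)).mul contDiffAt_const).mul
          (contDiffAt_fst.comp p contDiffAt_snd)
    have hNbcd : ∀ p : Sp, nq (pr p) < R ^ 2 → ContDiffAt ℝ 1 N.b p := by
      intro p hp
      have h1 : N.b = fun p => 1 / R * p.2.1 + s * k p * τ * p.1 := funext hNb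
      rw [h1]
      apply ContDiffAt.add
      · exact contDiffAt_const.mul (contDiffAt_fst.comp p contDiffAt_snd)
      · exact ((contDiffAt_const.mul (hkcd p hp)).mul contDiffAt_const).mul contDiffAt_fst
    have hNccd : ∀ p : Sp, nq (pr p) < R ^ 2 → ContDiffAt ℝ 1 N.c p := by
      intro p hp
      have h1 : N.c = fun p => s * k p := funext hNc
      rw [h1]
      exact contDiffAt_const.mul (hkcd p hp)
    have hk0 : ∀ p, 0 ≤ k p := by
      intro p
      rw [hk]
      simp only [kk]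
      positivity
    -- the field `k ψ N`
    have hkS := EQD_side hψ k hkcd
    have h1 := hB (fun p => k p * ψ p) hkS (fun p => mul_nonneg (hk0 p) (hpos p))
    rw [← hN] at h1
    have hmul : mul (fun p => k p * ψ p) N = ⟨fun p => (k p * N.a p) * ψ p, fun p => (k p * N.b p) * ψ p,
        fun p => (k p * N.c p) * ψ p⟩ := by
      unfold mul
      rw [VF.mk.injEq]
      refine ⟨funext fun p => ?_, funext fun p => ?_, funext fun p => ?_⟩ <;> ring
    have hC1 : C1c κ (mul (fun p => k p * ψ p) N) := by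
      rw [hmul]
      apply EQD_c1c hκ hR
      · exact EQD_side hψ _ (fun p hp => (hkcd p hp).mul (hNacd p hp))
      · exact EQD_side hψ _ (fun p hp => (hkcd p hp).mul (hNbcd p hp))
      · exact EQD_side hψ _ (fun p hp => (hkcd p hp).mul (hNccd p hp))
    -- the tangential field
    have hSa : Side R s m (fun p => (-(k p * N.a p)) * ψ p) :=
      EQD_side hψ _ (fun p hp => ((hkcd p hp).mul (hNacd p hp)).neg)
    have hSb : Side R s m (fun p => (-(k p * N.b p)) * ψ p) :=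
      EQD_side hψ _ (fun p hp => ((hkcd p hp).mul (hNbcd p hp)).neg)
    have hSc : Side R s m (fun p => (s - k p * N.c p) * ψ p) :=
      EQD_side hψ _ (fun p hp => contDiffAt_const.sub ((hkcd p hp).mul (hNccd p hp)))
    have h2 := hA ⟨fun p => (-(k p * N.a p)) * ψ p, fun p => (-(k p * N.b p)) * ψ p,
      fun p => (s - k p * N.c p) * ψ p⟩ hSa hSb hSc (by
        intro p
        rw [← hN]
        simp only
        by_cases hq : ψ p = 0
        · rw [hq]
          ring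
        · have hw := hsup p hq
          have hk2 : k p ^ 2 * (1 + τ ^ 2 * nq (pr p)) = 1 - (1 / R) ^ 2 * nq (pr p) := by
            rw [hk]
            exact EQD_kk h0 hw (EQD_nq0 (pr p))
          have hnn : N.a p ^ 2 + N.b p ^ 2 + N.c p ^ 2 = 1 := by
            rw [hNa, hNb, hNc]
            have hnq : nq (pr p) = p.1 ^ 2 + p.2.1 ^ 2 := rfl
            rw [hnq] at hk2
            linear_combination hk2 + (k p ^ 2 * τ ^ 2 * (p.1 ^ 2 + p.2.1 ^ 2) + k p ^ 2) * hss
          have e1 : s * N.c p = k p := by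
            rw [hNc, ← mul_assoc, hss, one_mul]
          linear_combination ψ p * e1 - k p * ψ p * hnn)
    have hC2 : C1c κ ⟨fun p => (-(k p * N.a p)) * ψ p, fun p => (-(k p * N.b p)) * ψ p,
      fun p => (s - k p * N.c p) * ψ p⟩ := EQD_c1c hκ hR _ hSa hSb hSc
    have h3 := ((hLIN κ τ E).1 _ _ 1 hC2 hC1).2
    rw [h2, zero_add, one_mul] at h3
    have hadd : add ⟨fun p => (-(k p * N.a p)) * ψ p, fun p => (-(k p * N.b p)) * ψ p,
      fun p => (s - k p * N.c p) * ψ p⟩ (mul (fun p => k p * ψ p) N) 1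
        = ⟨fun _ => 0, fun _ => 0, fun p => s * ψ p⟩ := by
      rw [hmul]
      unfold add
      rw [VF.mk.injEq]
      refine ⟨funext fun p => ?_, funext fun p => ?_, funext fun p => ?_⟩ <;> ring
    rw [hadd] at h3
    have h4 : TT κ τ E ⟨fun _ => 0, fun _ => 0, fun p => s * ψ p⟩
        = s * ∫ p in E, lam κ (nq (pr p)) ^ 2 * fderiv ℝ ψ p (0, 0, 1) := by
      rw [← integral_const_mul]
      unfold TT
      congr 1
      funext p
      unfold dv
      simp only
      rw [hz2, hz2, hz, EQD_dir (g := fun _ => s) ((hψd p).const_mul s) (hψd p) (fun σ => rfl)]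
      ring
    rw [← h4, h3]
    exact h1

end Pool.Agent.helper75.IQ
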